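import Mathlib

/-!
# DX-1: elimination of non-recurrent letters (matrix form)

`M` is a nonnegative integer matrix supported on `S`, `w` an initial vector, `η` weights `≥ 1` on
`S`. A letter `t ∈ S` that is not recurrent (`(M^(n+1)) t t = 0` for all `n`) can be eliminated: the
letters that lead to `t` are read one step later than the others.
-/

set_option autoImplicit false

namespace Pool.Agent.Helper49.DX

open Matrix Finset

variable {ι : Type*} [Fintype ι] [DecidableEq ι]

/-- `M` and `w` live on `S`, the weights are positive on `S` -/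
structure Sys (S : Finset ι) (M : Matrix ι ι ℕ) (w η : ι → ℕ) : Prop where
  hM : ∀ a b, M a b ≠ 0 → a ∈ S ∧ b ∈ S
  hw : ∀ a, w a ≠ 0 → a ∈ S
  hη : ∀ a ∈ S, 1 ≤ η a

theorem vec_supp {S : Finset ι} {M : Matrix ι ι ℕ} (hM : ∀ a b, M a b ≠ 0 → a ∈ S ∧ b ∈ S)
    {w : ι → ℕ} (hw : ∀ a, w a ≠ 0 → a ∈ S) (n : ℕ) :
    ∀ a, vecMul w (M ^ n) a ≠ 0 → a ∈ S := by
  cases n with
  | zero =>
    intro a ha
    rw [pow_zero, vecMul_one] at ha
    exact hw a ha
  | succ n =>
    intro a ha
    rw [pow_succ, ← vecMul_vecMul] at ha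
    have h1 : vecMul (vecMul w (M ^ n)) M a = ∑ c, vecMul w (M ^ n) c * M c a := rfl
    rw [h1] at ha
    obtain ⟨c, -, hc⟩ := Finset.exists_ne_zero_of_sum_ne_zero ha
    exact (hM c a (right_ne_zero_of_mul hc)).2

/-- one elimination step -/
theorem elim_step {S : Finset ι} {M : Matrix ι ι ℕ} {w η : ι → ℕ} (h : Sys S M w η)
    (t : ι) (ht : t ∈ S) (hrec : ∀ n, (M ^ (n + 1)) t t = 0) :
    ∃ (M' : Matrix ι ι ℕ) (w' η' : ι → ℕ), Sys (S.erase t) M' w' η' ∧
      (∀ a n, (M' ^ (n + 1)) a a ≠ 0 → (M ^ (n + 1)) a a ≠ 0) ∧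
      ∀ n, ∑ b, vecMul w' (M' ^ n) b * η' b = ∑ b, vecMul w (M ^ (n + 1)) b * η b := by
  classical
  obtain ⟨hM, hw, hη⟩ := h
  obtain ⟨U, hU⟩ : ∃ U : Finset ι, U = univ.filter (fun a => ∃ n, (M ^ (n + 1)) a t ≠ 0) :=
    ⟨_, rfl⟩
  have memU : ∀ a, a ∈ U ↔ ∃ n, (M ^ (n + 1)) a t ≠ 0 := fun a => by
    rw [hU, mem_filter]
    exact ⟨fun h => h.2, fun h => ⟨mem_univ _, h⟩⟩
  have htU : t ∉ U := by
    rw [memU]
    rintro ⟨n, hn⟩
    exact hn (hrec n)
  -- an edge into `U` starts in `U`
  have intoU : ∀ c a, M c a ≠ 0 → a ∈ U → c ∈ U := by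
    intro c a hca ha
    obtain ⟨n, hn⟩ := (memU a).1 ha
    refine (memU c).2 ⟨n + 1, ?_⟩
    rw [pow_succ', mul_apply]
    intro h0
    rw [Finset.sum_eq_zero_iff] at h0
    exact (mul_ne_zero hca hn) (h0 a (mem_univ _))
  have intot : ∀ c, M c t ≠ 0 → c ∈ U := by
    intro c hc
    refine (memU c).2 ⟨0, ?_⟩
    rw [zero_add, pow_one]
    exact hc
  have hUS : ∀ a ∈ U, a ∈ S := by
    intro a ha
    obtain ⟨n, hn⟩ := (memU a).1 ha
    rw [pow_succ', mul_apply] at hn
    obtain ⟨c, -, hc⟩ := Finset.exists_ne_zero_of_sum_ne_zero hn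
    exact (hM a c (left_ne_zero_of_mul hc)).1
  have outU : ∀ a ∈ U, ∃ c, M a c ≠ 0 ∧ (c ∈ U ∨ c = t) := by
    intro a ha
    obtain ⟨n, hn⟩ := (memU a).1 ha
    rw [pow_succ', mul_apply] at hn
    obtain ⟨c, -, hc⟩ := Finset.exists_ne_zero_of_sum_ne_zero hn
    refine ⟨c, left_ne_zero_of_mul hc, ?_⟩
    have h2 := right_ne_zero_of_mul hc
    cases n with
    | zero =>
      right
      by_contra hne
      rw [pow_zero, one_apply_ne hne] at h2
      exact h2 rfl
    | succ n => exact Or.inl ((memU c).2 ⟨n, h2⟩)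
  obtain ⟨W, hW⟩ : ∃ W : Finset ι, W = (S \ U).erase t := ⟨_, rfl⟩
  have memW : ∀ a, a ∈ W ↔ a ≠ t ∧ a ∈ S ∧ a ∉ U := fun a => by
    rw [hW, mem_erase, mem_sdiff]
  have hWU : ∀ a, a ∈ W → a ∉ U := fun a ha => ((memW a).1 ha).2.2
  -- splitting sums
  have split : ∀ g : ι → ℕ, (∀ a, a ∉ S → g a = 0) →
      ∑ a, g a = ∑ a ∈ U, g a + g t + ∑ a ∈ W, g a := by
    intro g hg
    have h1 : ∑ a, g a = ∑ a ∈ S, g a :=
      (Finset.sum_subset (subset_univ S) fun a _ ha => hg a ha).symm
    have hSU : U ⊆ S := hUS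
    have h2 : ∑ a ∈ S, g a = ∑ a ∈ S \ U, g a + ∑ a ∈ U, g a := (Finset.sum_sdiff hSU).symm
    have h3 : t ∈ S \ U := mem_sdiff.2 ⟨ht, htU⟩
    have h4 : ∑ a ∈ S \ U, g a = g t + ∑ a ∈ W, g a := by
      rw [hW]
      exact (Finset.add_sum_erase _ _ h3).symm
    rw [h1, h2, h4]
    ring
  obtain ⟨M', hM'⟩ : ∃ M' : Matrix ι ι ℕ, M' = fun a b =>
      if a ∈ U then (if b ∈ U then M a b else
        if b ∈ W then (∑ c ∈ U, M a c * M c b) + M a t * M t b else 0)
      else if a ∈ W then (if b ∈ W then M a b else 0) else 0 := ⟨_, rfl⟩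
  have mUU : ∀ a b, a ∈ U → b ∈ U → M' a b = M a b := fun a b ha hb => by
    rw [hM']
    simp [ha, hb]
  have mUW : ∀ a b, a ∈ U → b ∈ W → M' a b = (∑ c ∈ U, M a c * M c b) + M a t * M t b :=
    fun a b ha hb => by
      rw [hM']
      simp [ha, hb, hWU b hb]
  have mWW : ∀ a b, a ∈ W → b ∈ W → M' a b = M a b := fun a b ha hb => by
    rw [hM']
    simp [ha, hb, hWU a ha]
  have mWx : ∀ a b, a ∈ W → b ∉ W → M' a b = 0 := fun a b ha hb => by
    rw [hM']
    simp [ha, hb, hWU a ha]
  have mx : ∀ a b, a ∉ U → a ∉ W → M' a b = 0 := fun a b ha hb => by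
    rw [hM']
    simp [ha, hb]
  have mUx : ∀ a b, b ∉ U → b ∉ W → M' a b = 0 := fun a b hb hb2 => by
    rw [hM']
    by_cases ha : a ∈ U
    · simp [ha, hb, hb2]
    · by_cases ha2 : a ∈ W
      · simp [ha, ha2, hb2]
      · simp [ha, ha2]
  obtain ⟨w', hw'⟩ : ∃ w' : ι → ℕ, w' = fun a => if a ∈ U then w a else
      if a ∈ W then vecMul w M a else 0 := ⟨_, rfl⟩
  obtain ⟨η', hη'⟩ : ∃ η' : ι → ℕ, η' = fun a => if a ∈ U then (∑ c ∈ U, M a c * η c) + M a t * η t
      else η a := ⟨_, rfl⟩
  have hUW : ∀ a, a ∈ U ∨ a ∈ W → a ∈ S.erase t := by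
    rintro a (ha | ha)
    · exact mem_erase.2 ⟨fun h => htU (h ▸ ha), hUS a ha⟩
    · exact mem_erase.2 ⟨((memW a).1 ha).1, ((memW a).1 ha).2.1⟩
  have hSW : ∀ a ∈ S.erase t, a ∉ U → a ∈ W := by
    intro a ha hu
    exact (memW a).2 ⟨(mem_erase.1 ha).1, (mem_erase.1 ha).2, hu⟩
  refine ⟨M', w', η', ⟨?_, ?_, ?_⟩, ?_, ?_⟩
  · intro a b hab
    constructor
    · by_contra hcon
      refine hab (mx a b (fun h => hcon (hUW a (Or.inl h))) fun h => hcon (hUW a (Or.inr h)))
    · by_contra hcon
      refine hab (mUx a b (fun h => hcon (hUW b (Or.inl h))) fun h => hcon (hUW b (Or.inr h)))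
  · intro a ha
    rw [hw'] at ha
    by_contra hcon
    have h1 : a ∉ U := fun h => hcon (hUW a (Or.inl h))
    have h2 : a ∉ W := fun h => hcon (hUW a (Or.inr h))
    simp [h1, h2] at ha
  · intro a ha
    rw [hη']
    by_cases hu : a ∈ U
    · simp only [hu, if_true]
      obtain ⟨c, hc, hc2⟩ := outU a hu
      rcases hc2 with hc2 | rfl
      · have h1 : 1 ≤ M a c * η c := Nat.mul_pos (Nat.pos_of_ne_zero hc) (hη c (hUS c hc2))
        have h2 : M a c * η c ≤ ∑ c ∈ U, M a c * η c :=
          Finset.single_le_sum (f := fun c => M a c * η c) (fun _ _ => Nat.zero_le _) hc2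
        omega
      · have h1 : 1 ≤ M a c * η c := Nat.mul_pos (Nat.pos_of_ne_zero hc) (hη c ht)
        omega
    · simp only [hu, if_false]
      exact hη a (mem_erase.1 ha).2
  · -- recurrence
    have c1 : ∀ n, ∀ b ∈ U, ∀ a, (M' ^ n) a b ≤ (M ^ n) a b := by
      intro n
      induction n with
      | zero =>
        intro b _ a
        rw [pow_zero, pow_zero]
      | succ n ih =>
        intro b hb a
        rw [pow_succ, pow_succ, mul_apply, mul_apply]
        refine Finset.sum_le_sum fun c _ => ?_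
        by_cases hc : c ∈ U
        · rw [mUU c b hc hb]
          exact Nat.mul_le_mul_right _ (ih c hc a)
        · have h0 : M' c b = 0 := by
            by_cases hc2 : c ∈ W
            · exact mWx c b hc2 (fun h => hWU b h hb)
            · exact mx c b hc hc2
          rw [h0, mul_zero]
          exact Nat.zero_le _
    have c2 : ∀ n, ∀ a ∈ W, ∀ b, (M' ^ n) a b ≤ (M ^ n) a b := by
      intro n
      induction n with
      | zero =>
        intro a _ b
        rw [pow_zero, pow_zero]
      | succ n ih =>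
        intro a ha b
        rw [pow_succ', pow_succ', mul_apply, mul_apply]
        refine Finset.sum_le_sum fun c _ => ?_
        by_cases hc : c ∈ W
        · rw [mWW a c ha hc]
          exact Nat.mul_le_mul_left _ (ih c hc b)
        · rw [mWx a c ha hc, zero_mul]
          exact Nat.zero_le _
    intro a n hn
    by_cases ha : a ∈ U
    · have := c1 (n + 1) a ha a
      omega
    · by_cases ha2 : a ∈ W
      · have := c2 (n + 1) a ha2 a
        omega
      · exfalso
        apply hn
        rw [pow_succ', mul_apply]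
        refine Finset.sum_eq_zero fun c _ => ?_
        rw [mx a c ha ha2, zero_mul]
  · -- growth
    have xs : ∀ n a, a ∉ S → vecMul w (M ^ n) a = 0 := by
      intro n a ha
      by_contra hcon
      exact ha (vec_supp hM hw n a hcon)
    have stp : ∀ n b, vecMul w (M ^ (n + 1)) b = ∑ c, vecMul w (M ^ n) c * M c b := by
      intro n b
      rw [pow_succ, ← vecMul_vecMul]
      rfl
    -- values on `U` and `t` come from `U`
    have fromU : ∀ n b, (b ∈ U ∨ b = t) →
        vecMul w (M ^ (n + 1)) b = ∑ c ∈ U, vecMul w (M ^ n) c * M c b := by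
      intro n b hb
      rw [stp]
      symm
      refine Finset.sum_subset (subset_univ U) fun c _ hc => ?_
      have h0 : M c b = 0 := by
        by_contra hne
        rcases hb with hb | rfl
        · exact hc (intoU c b hne hb)
        · exact hc (intot c hne)
      rw [h0, mul_zero]
    have key : ∀ n, ∀ a, vecMul w' (M' ^ n) a =
        if a ∈ U then vecMul w (M ^ n) a else if a ∈ W then vecMul w (M ^ (n + 1)) a else 0 := by
      intro n
      induction n with
      | zero =>
        intro a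
        rw [pow_zero, vecMul_one, hw', pow_zero, vecMul_one, zero_add, pow_one]
      | succ n ih =>
        intro b
        have h1 : vecMul w' (M' ^ (n + 1)) b = ∑ c, vecMul w' (M' ^ n) c * M' c b := by
          rw [pow_succ, ← vecMul_vecMul]
          rfl
        rw [h1]
        have h2 : ∑ c, vecMul w' (M' ^ n) c * M' c b =
            ∑ c ∈ U, vecMul w' (M' ^ n) c * M' c b + vecMul w' (M' ^ n) t * M' t b +
              ∑ c ∈ W, vecMul w' (M' ^ n) c * M' c b := by
          refine split _ fun a ha => ?_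
          rw [mx a b (fun h => ha (hUS a h)) (fun h => ha ((memW a).1 h).2.1), mul_zero]
        have h3 : M' t b = 0 := mx t b htU (fun h => ((memW t).1 h).1 rfl)
        rw [h2, h3, mul_zero, add_zero]
        have h4 : ∑ c ∈ U, vecMul w' (M' ^ n) c * M' c b =
            ∑ c ∈ U, vecMul w (M ^ n) c * M' c b := by
          refine Finset.sum_congr rfl fun c hc => ?_
          rw [ih, if_pos hc]
        have h5 : ∑ c ∈ W, vecMul w' (M' ^ n) c * M' c b =
            ∑ c ∈ W, vecMul w (M ^ (n + 1)) c * M' c b := by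
          refine Finset.sum_congr rfl fun c hc => ?_
          rw [ih, if_neg (hWU c hc), if_pos hc]
        rw [h4, h5]
        by_cases hb : b ∈ U
        · rw [if_pos hb, fromU n b (Or.inl hb)]
          have h6 : ∑ c ∈ W, vecMul w (M ^ (n + 1)) c * M' c b = 0 := by
            refine Finset.sum_eq_zero fun c hc => ?_
            rw [mWx c b hc (fun h => hWU b h hb), mul_zero]
          rw [h6, add_zero]
          refine Finset.sum_congr rfl fun c hc => ?_
          rw [mUU c b hc hb]
        · rw [if_neg hb]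
          by_cases hb2 : b ∈ W
          · rw [if_pos hb2, stp (n + 1) b, split (fun c => vecMul w (M ^ (n + 1)) c * M c b)
              (fun a ha => by rw [xs (n + 1) a ha, zero_mul])]
            have h7 : ∑ c ∈ W, vecMul w (M ^ (n + 1)) c * M' c b =
                ∑ c ∈ W, vecMul w (M ^ (n + 1)) c * M c b := by
              refine Finset.sum_congr rfl fun c hc => ?_
              rw [mWW c b hc hb2]
            rw [h7]
            congr 1
            have h8 : ∑ c ∈ U, vecMul w (M ^ n) c * M' c b =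
                ∑ c ∈ U, vecMul w (M ^ n) c * ((∑ d ∈ U, M c d * M d b) + M c t * M t b) := by
              refine Finset.sum_congr rfl fun c hc => ?_
              rw [mUW c b hc hb2]
            rw [h8]
            have h9 : ∑ c ∈ U, vecMul w (M ^ (n + 1)) c * M c b =
                ∑ c ∈ U, vecMul w (M ^ n) c * ∑ d ∈ U, M c d * M d b := by
              have e1 : ∀ c ∈ U, vecMul w (M ^ (n + 1)) c * M c b =
                  ∑ d ∈ U, vecMul w (M ^ n) d * (M d c * M c b) := by
                intro c hc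
                rw [fromU n c (Or.inl hc), Finset.sum_mul]
                refine Finset.sum_congr rfl fun d _ => ?_
                rw [mul_assoc]
              rw [Finset.sum_congr rfl e1, Finset.sum_comm]
              refine Finset.sum_congr rfl fun d _ => ?_
              rw [Finset.mul_sum]
            have h10 : vecMul w (M ^ (n + 1)) t * M t b =
                ∑ c ∈ U, vecMul w (M ^ n) c * (M c t * M t b) := by
              rw [fromU n t (Or.inr rfl), Finset.sum_mul]
              refine Finset.sum_congr rfl fun d _ => ?_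
              rw [mul_assoc]
            rw [h9, h10, ← Finset.sum_add_distrib]
            refine Finset.sum_congr rfl fun c _ => ?_
            rw [mul_add]
          · rw [if_neg hb2]
            have h6 : ∀ c, M' c b = 0 := fun c => mUx c b hb hb2
            simp [h6]
    intro n
    have g1 : ∑ b, vecMul w' (M' ^ n) b * η' b =
        ∑ b ∈ U, vecMul w' (M' ^ n) b * η' b + vecMul w' (M' ^ n) t * η' t +
          ∑ b ∈ W, vecMul w' (M' ^ n) b * η' b := by
      refine split _ fun a ha => ?_
      rw [key, if_neg (fun h => ha (hUS a h)), if_neg (fun h => ha ((memW a).1 h).2.1), zero_mul]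
    have g2 : vecMul w' (M' ^ n) t = 0 := by
      rw [key, if_neg htU, if_neg (fun h => ((memW t).1 h).1 rfl)]
    have g3 : ∑ b, vecMul w (M ^ (n + 1)) b * η b =
        ∑ b ∈ U, vecMul w (M ^ (n + 1)) b * η b + vecMul w (M ^ (n + 1)) t * η t +
          ∑ b ∈ W, vecMul w (M ^ (n + 1)) b * η b := by
      refine split _ fun a ha => ?_
      rw [xs (n + 1) a ha, zero_mul]
    rw [g1, g2, g3, zero_mul, add_zero]
    congr 1
    · have e0 : ∑ b ∈ U, vecMul w' (M' ^ n) b * η' b =
          ∑ b ∈ U, vecMul w (M ^ n) b * ((∑ c ∈ U, M b c * η c) + M b t * η t) := by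
        refine Finset.sum_congr rfl fun b hb => ?_
        rw [key, if_pos hb, hη']
        simp only [hb, if_true]
      have e1 : ∑ b ∈ U, vecMul w (M ^ (n + 1)) b * η b =
          ∑ b ∈ U, vecMul w (M ^ n) b * ∑ c ∈ U, M b c * η c := by
        have e2 : ∀ c ∈ U, vecMul w (M ^ (n + 1)) c * η c =
            ∑ d ∈ U, vecMul w (M ^ n) d * (M d c * η c) := by
          intro c hc
          rw [fromU n c (Or.inl hc), Finset.sum_mul]
          refine Finset.sum_congr rfl fun d _ => ?_
          rw [mul_assoc]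
        rw [Finset.sum_congr rfl e2, Finset.sum_comm]
        refine Finset.sum_congr rfl fun d _ => ?_
        rw [Finset.mul_sum]
      have e3 : vecMul w (M ^ (n + 1)) t * η t =
          ∑ c ∈ U, vecMul w (M ^ n) c * (M c t * η t) := by
        rw [fromU n t (Or.inr rfl), Finset.sum_mul]
        refine Finset.sum_congr rfl fun d _ => ?_
        rw [mul_assoc]
      rw [e0, e1, e3, ← Finset.sum_add_distrib]
      refine Finset.sum_congr rfl fun c _ => ?_
      rw [mul_add]
    · refine Finset.sum_congr rfl fun b hb => ?_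
      rw [key, if_neg (hWU b hb), if_pos hb, hη']
      simp only [hWU b hb, if_false]

/-- elimination of all non-recurrent letters -/
theorem elim_all (m : ℕ) : ∀ {S : Finset ι} {M : Matrix ι ι ℕ} {w η : ι → ℕ}, S.card ≤ m →
    Sys S M w η → ∃ (L : ℕ) (S' : Finset ι) (M' : Matrix ι ι ℕ) (w' η' : ι → ℕ), S' ⊆ S ∧
      Sys S' M' w' η' ∧ (∀ a ∈ S', ∃ n, (M ^ (n + 1)) a a ≠ 0) ∧
      ∀ n, ∑ b, vecMul w' (M' ^ n) b * η' b = ∑ b, vecMul w (M ^ (n + L)) b * η b := by
  induction m with
  | zero =>
    intro S M w η hS h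
    refine ⟨0, S, M, w, η, Subset.refl _, h, ?_, fun n => rfl⟩
    intro a ha
    rw [Nat.le_zero, Finset.card_eq_zero] at hS
    rw [hS] at ha
    exact absurd ha (notMem_empty a)
  | succ m ih =>
    intro S M w η hS h
    by_cases hall : ∀ a ∈ S, ∃ n, (M ^ (n + 1)) a a ≠ 0
    · exact ⟨0, S, M, w, η, Subset.refl _, h, hall, fun n => rfl⟩
    · push Not at hall
      obtain ⟨t, ht, hrec⟩ := hall
      obtain ⟨M1, w1, η1, hs1, hr1, hg1⟩ := elim_step h t ht hrec
      have hc : (S.erase t).card ≤ m := by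
        rw [Finset.card_erase_of_mem ht]
        omega
      obtain ⟨L, S', M', w', η', h1, h2, h3, h4⟩ := ih hc hs1
      refine ⟨L + 1, S', M', w', η', h1.trans (Finset.erase_subset _ _), h2, ?_, ?_⟩
      · intro a ha
        obtain ⟨n, hn⟩ := h3 a ha
        exact ⟨n, hr1 a n hn⟩
      · intro n
        rw [h4, hg1]
        have e : n + L + 1 = n + (L + 1) := by ring
        rw [e]

end Pool.Agent.Helper49.DX
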