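import Pool.Agent.Helper73.DM.Act
import Pool.Agent.Helper73.DM.Mat

/-!
# DX-3: D0L systems and matrices, with the entries of the powers
-/

set_option autoImplicit false

open Polynomial

namespace Pool.Agent.Helper49.DX

open Pool.Agent.Helper73.DM

/-- the morphism of the system -/
def hm (p : List (List ℕ) × List ℕ) (w : List ℕ) : List ℕ := w.flatMap (fun a => p.1.getD a [])

/-- all letters that occur in the words of the sequence and in the later images of themselves
lie in a set of at most `m` letters -/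
def RecLE (m : ℕ) (p : List (List ℕ) × List ℕ) : Prop :=
  ∃ F : Finset ℕ, F.card ≤ m ∧ ∀ a i j : ℕ, a ∈ (hm p)^[i] p.2 → a ∈ (hm p)^[j + 1] [a] → a ∈ F

theorem grow_eq (p : List (List ℕ) × List ℕ) (n : ℕ) : grow p n = ((hm p)^[n] p.2).length := rfl

theorem hm_append (p : List (List ℕ) × List ℕ) (u v : List ℕ) :
    hm p (u ++ v) = hm p u ++ hm p v := by
  unfold hm
  rw [List.flatMap_append]

theorem iter_append (p : List (List ℕ) × List ℕ) (n : ℕ) : ∀ u v : List ℕ,
    (hm p)^[n] (u ++ v) = (hm p)^[n] u ++ (hm p)^[n] v := by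
  induction n with
  | zero => intro u v; rfl
  | succ n ih =>
    intro u v
    rw [Function.iterate_succ_apply, Function.iterate_succ_apply, Function.iterate_succ_apply,
      hm_append, ih]

theorem iter_nil (p : List (List ℕ) × List ℕ) (n : ℕ) : (hm p)^[n] [] = [] := by
  induction n with
  | zero => rfl
  | succ n ih =>
    rw [Function.iterate_succ_apply]
    exact ih

theorem mem_iter (p : List (List ℕ) × List ℕ) (n : ℕ) (l : List ℕ) (b : ℕ) :
    b ∈ (hm p)^[n] l ↔ ∃ a ∈ l, b ∈ (hm p)^[n] [a] := by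
  induction l with
  | nil =>
    rw [iter_nil]
    simp
  | cons c l ih =>
    have h1 : c :: l = [c] ++ l := rfl
    rw [h1, iter_append, List.mem_append, ih]
    constructor
    · rintro (h | ⟨a, ha, hb⟩)
      · exact ⟨c, by simp, h⟩
      · exact ⟨a, by simp [ha], hb⟩
    · rintro ⟨a, ha, hb⟩
      rw [List.mem_append, List.mem_singleton] at ha
      rcases ha with rfl | ha
      · exact Or.inl hb
      · exact Or.inr ⟨a, ha, hb⟩

/-- occurring letters are closed under the morphism -/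
theorem occ_iter (p : List (List ℕ) × List ℕ) {a b i n : ℕ} (ha : a ∈ (hm p)^[i] p.2)
    (hb : b ∈ (hm p)^[n] [a]) : b ∈ (hm p)^[n + i] p.2 := by
  rw [Function.iterate_add_apply, mem_iter]
  exact ⟨a, ha, hb⟩

theorem mem_letters (p : List (List ℕ) × List ℕ) {n a : ℕ} (h : a ∈ (hm p)^[n] p.2) :
    a ∈ letters p := by
  unfold letters
  rw [List.mem_toFinset, List.mem_append]
  cases n with
  | zero => exact Or.inr h
  | succ n =>
    left
    rw [Function.iterate_succ_apply'] at h
    unfold hm at h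
    rw [List.mem_flatMap] at h
    obtain ⟨c, -, hc⟩ := h
    rcases lt_or_ge c p.1.length with h1 | h1
    · rw [List.getD_eq_getElem _ _ h1] at hc
      rw [List.mem_flatten]
      exact ⟨_, List.getElem_mem h1, hc⟩
    · rw [List.getD_eq_default _ _ h1] at hc
      simp at hc

private theorem sum_count (l : List ℕ) (R : Finset ℕ) (h : ∀ a ∈ l, a ∈ R) (f : ℕ → ℕ) :
    (l.map f).sum = ∑ a : R, l.count (a : ℕ) * f a := by
  rw [Finset.sum_coe_sort R (fun a => l.count a * f a), Finset.sum_list_map_count]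
  refine Finset.sum_subset ?_ ?_
  · intro a ha
    exact h a (List.mem_toFinset.1 ha)
  · intro a _ ha
    rw [List.count_eq_zero_of_not_mem (fun h' => ha (List.mem_toFinset.2 h'))]
    simp

/-- the matrix of a system on its occurring letters -/
theorem exists_matrix2 (p : List (List ℕ) × List ℕ) :
    ∃ (R : Finset ℕ) (M : Matrix R R ℕ) (w : R → ℕ), R ⊆ letters p ∧
      (∀ a, a ∈ R ↔ ∃ i, a ∈ (hm p)^[i] p.2) ∧
      (∀ n, grow p n = ∑ b, Matrix.vecMul w (M ^ n) b) ∧
      (∀ n (a : R), Matrix.vecMul w (M ^ n) a = ((hm p)^[n] p.2).count (a : ℕ)) ∧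
      (∀ n (a b : R), (M ^ n) a b = ((hm p)^[n] [(a : ℕ)]).count (b : ℕ)) := by
  classical
  obtain ⟨R, hR⟩ : ∃ R : Finset ℕ,
    R = (letters p).filter (fun a => ∃ n, a ∈ (hm p)^[n] p.2) := ⟨_, rfl⟩
  have hmem : ∀ a, a ∈ R ↔ ∃ i, a ∈ (hm p)^[i] p.2 := by
    intro a
    rw [hR, Finset.mem_filter]
    refine ⟨fun h => h.2, fun h => ⟨?_, h⟩⟩
    obtain ⟨n, hn⟩ := h
    exact mem_letters p hn
  obtain ⟨M, hM⟩ : ∃ M : Matrix R R ℕ, ∀ a b : R, M a b = (p.1.getD (a : ℕ) []).count (b : ℕ) :=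
    ⟨Matrix.of fun a b : R => (p.1.getD (a : ℕ) []).count (b : ℕ), fun a b => rfl⟩
  obtain ⟨w, hw⟩ : ∃ w : R → ℕ, ∀ b : R, w b = p.2.count (b : ℕ) := ⟨_, fun b => rfl⟩
  -- counting in a word whose letters are in `R`
  have hcnt : ∀ l : List ℕ, (∀ a ∈ l, a ∈ R) → ∀ b : R,
      (hm p l).count (b : ℕ) = ∑ c : R, l.count (c : ℕ) * M c b := by
    intro l hl b
    unfold hm
    rw [List.count_flatMap]
    have h1 := sum_count l R hl ((List.count (b : ℕ)) ∘ fun a => p.1.getD a [])
    rw [h1]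
    refine Finset.sum_congr rfl fun c _ => ?_
    rw [hM]
    rfl
  have hc : ∀ n, ∀ b : R, Matrix.vecMul w (M ^ n) b = ((hm p)^[n] p.2).count (b : ℕ) := by
    intro n
    induction n with
    | zero =>
      intro b
      rw [pow_zero, Matrix.vecMul_one, hw]
      rfl
    | succ n ih =>
      intro b
      rw [pow_succ, ← Matrix.vecMul_vecMul, Function.iterate_succ_apply',
        hcnt _ (fun a ha => (hmem a).2 ⟨n, ha⟩)]
      have h3 : Matrix.vecMul (Matrix.vecMul w (M ^ n)) M b =
          ∑ a : R, Matrix.vecMul w (M ^ n) a * M a b := rfl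
      rw [h3]
      exact Finset.sum_congr rfl fun a _ => by rw [ih a]
  have hc2 : ∀ n, ∀ a b : R, (M ^ n) a b = ((hm p)^[n] [(a : ℕ)]).count (b : ℕ) := by
    intro n
    induction n with
    | zero =>
      intro a b
      rw [pow_zero, Function.iterate_zero, id, Matrix.one_apply]
      by_cases hab : a = b
      · rw [if_pos hab, hab]
        simp
      · rw [if_neg hab]
        symm
        rw [List.count_eq_zero, List.mem_singleton]
        intro h
        exact hab (Subtype.ext h.symm)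
    | succ n ih =>
      intro a b
      have hl : ∀ c ∈ (hm p)^[n] [(a : ℕ)], c ∈ R := by
        intro c hcc
        obtain ⟨i, hi⟩ := (hmem a).1 a.2
        exact (hmem c).2 ⟨_, occ_iter p hi hcc⟩
      rw [pow_succ, Matrix.mul_apply, Function.iterate_succ_apply', hcnt _ hl]
      exact Finset.sum_congr rfl fun c _ => by rw [ih a c]
  refine ⟨R, M, w, ?_, hmem, ?_, hc, hc2⟩
  · rw [hR]
    exact Finset.filter_subset _ _
  · intro n
    rw [grow_eq]
    have h1 := sum_count ((hm p)^[n] p.2) R (fun a ha => (hmem a).2 ⟨n, ha⟩) (fun _ => 1)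
    have h2 : (((hm p)^[n] p.2).map (fun _ => 1)).sum = ((hm p)^[n] p.2).length := by simp
    rw [← h2, h1]
    refine Finset.sum_congr rfl fun b _ => ?_
    rw [hc, mul_one]

/-- Cayley-Hamilton for a bilinear entry of the powers of a matrix of natural numbers -/
theorem entry_ann {ι : Type*} [Fintype ι] [DecidableEq ι] (M : Matrix ι ι ℕ) :
    ∃ χ : ℤ[X], χ.Monic ∧ χ.natDegree = Fintype.card ι ∧ ∀ u v : ι → ℕ,
      act χ (fun n => ((∑ b, Matrix.vecMul u (M ^ n) b * v b : ℕ) : ℤ)) = 0 := by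
  refine ⟨(M.map (Nat.castRingHom ℤ)).charpoly, Matrix.charpoly_monic _,
    Matrix.charpoly_natDegree_eq_dim _, fun u v => ?_⟩
  have h1 : (fun n => ((∑ b, Matrix.vecMul u (M ^ n) b * v b : ℕ) : ℤ)) =
      fun n => (fun b => (u b : ℤ)) ⬝ᵥ
        ((M.map (Nat.castRingHom ℤ)) ^ n).mulVec (fun b => (v b : ℤ)) := by
    funext n
    rw [Matrix.dotProduct_mulVec]
    have h2 : (M.map (Nat.castRingHom ℤ)) ^ n = (M ^ n).map (Nat.castRingHom ℤ) :=
      (Matrix.map_pow M (Nat.castRingHom ℤ) n).symm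
    rw [h2]
    simp only [dotProduct, Nat.cast_sum, Nat.cast_mul]
    refine Finset.sum_congr rfl fun b _ => ?_
    simp only [Matrix.vecMul, dotProduct, Nat.cast_sum, Nat.cast_mul]
    rfl
  funext n
  rw [h1, act_matrix, Matrix.aeval_self_charpoly, mul_zero, Matrix.zero_mulVec,
    dotProduct_zero]
  rfl

/-- if the first `card ι` values of an entry vanish, all vanish -/
theorem entry_zero {ι : Type*} [Fintype ι] [DecidableEq ι] (M : Matrix ι ι ℕ) (u v : ι → ℕ)
    (h : ∀ n < Fintype.card ι, ∑ b, Matrix.vecMul u (M ^ n) b * v b = 0) (n : ℕ) :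
    ∑ b, Matrix.vecMul u (M ^ n) b * v b = 0 := by
  obtain ⟨χ, hχ, hd, hk⟩ := entry_ann M
  have h1 := eq_zero_of_act hχ (hk u v) (fun i hi => by
    rw [h i (by rwa [hd] at hi)]
    rfl)
  have h2 := congrFun h1 n
  simp only [Pi.zero_apply] at h2
  exact_mod_cast h2

theorem letters_card_le (p : List (List ℕ) × List ℕ) : (letters p).card ≤ sz p := by
  unfold letters sz
  refine (List.toFinset_card_le _).trans ?_
  rw [List.length_append]
  omega

/-- occurrence is bounded -/
theorem occ_bound (p : List (List ℕ) × List ℕ) {a : ℕ} (h : ∃ i, a ∈ (hm p)^[i] p.2) :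
    ∃ i < sz p, a ∈ (hm p)^[i] p.2 := by
  classical
  obtain ⟨R, M, w, hR, hmem, -, hc, -⟩ := exists_matrix2 p
  have haR : a ∈ R := (hmem a).2 h
  obtain ⟨i, hi⟩ := h
  by_contra hcon
  push Not at hcon
  have hval : ∀ n, ∑ b, Matrix.vecMul w (M ^ n) b * (if b = ⟨a, haR⟩ then 1 else 0) =
      ((hm p)^[n] p.2).count a := by
    intro n
    simp only [mul_ite, mul_one, mul_zero, Finset.sum_ite_eq', Finset.mem_univ, if_true]
    exact hc n ⟨a, haR⟩
  have h1 := entry_zero M w (fun b => if b = ⟨a, haR⟩ then 1 else 0) (fun n hn => by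
    rw [hval]
    rw [List.count_eq_zero]
    refine hcon n (lt_of_lt_of_le hn ?_)
    rw [Fintype.card_coe]
    exact (Finset.card_le_card hR).trans (letters_card_le p)) i
  rw [hval, List.count_eq_zero] at h1
  exact h1 hi

/-- return is bounded -/
theorem ret_bound (p : List (List ℕ) × List ℕ) {a : ℕ} (h : ∃ i, a ∈ (hm p)^[i] p.2)
    (hr : ∃ j, a ∈ (hm p)^[j + 1] [a]) : ∃ j < sz p, a ∈ (hm p)^[j + 1] [a] := by
  classical
  obtain ⟨R, M, w, hR, hmem, -, -, hc⟩ := exists_matrix2 p
  have haR : a ∈ R := (hmem a).2 h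
  obtain ⟨j, hj⟩ := hr
  by_contra hcon
  push Not at hcon
  have hval : ∀ n, ∑ b, Matrix.vecMul (fun b => M ⟨a, haR⟩ b) (M ^ n) b *
      (if b = ⟨a, haR⟩ then 1 else 0) = ((hm p)^[n + 1] [a]).count a := by
    intro n
    simp only [mul_ite, mul_one, mul_zero, Finset.sum_ite_eq', Finset.mem_univ, if_true]
    have h2 : Matrix.vecMul (fun b => M ⟨a, haR⟩ b) (M ^ n) ⟨a, haR⟩ =
        (M ^ (n + 1)) ⟨a, haR⟩ ⟨a, haR⟩ := by
      rw [pow_succ', Matrix.mul_apply]
      rfl
    rw [h2]
    exact hc (n + 1) ⟨a, haR⟩ ⟨a, haR⟩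
  have h1 := entry_zero M (fun b => M ⟨a, haR⟩ b) (fun b => if b = ⟨a, haR⟩ then 1 else 0)
    (fun n hn => by
      rw [hval]
      rw [List.count_eq_zero]
      refine hcon n (lt_of_lt_of_le hn ?_)
      rw [Fintype.card_coe]
      exact (Finset.card_le_card hR).trans (letters_card_le p)) j
  rw [hval, List.count_eq_zero] at h1
  exact h1 hj

/-- equality of tails is decided by finitely many values -/
theorem tail_eq (p p' : List (List ℕ) × List ℕ) (N : ℕ)
    (h : ∀ n < sz p + sz p', grow p (n + N) = grow p' n) (n : ℕ) :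
    grow p (n + N) = grow p' n := by
  classical
  have key : ∀ q : List (List ℕ) × List ℕ, ∃ χ : ℤ[X], χ.Monic ∧ χ.natDegree ≤ sz q ∧
      act χ (fun n => (grow q n : ℤ)) = 0 := by
    intro q
    obtain ⟨R, M, w, hR, -, hg, -, -⟩ := exists_matrix2 q
    obtain ⟨χ, hχ, hd, hk⟩ := entry_ann M
    refine ⟨χ, hχ, ?_, ?_⟩
    · rw [hd, Fintype.card_coe]
      exact (Finset.card_le_card hR).trans (letters_card_le q)
    · have h1 := hk w (fun _ => 1)
      simp only [mul_one] at h1
      rw [← h1]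
      congr 1
      funext n
      rw [hg]
  obtain ⟨χ, hχ, hd, hk⟩ := key p
  obtain ⟨χ', hχ', hd', hk'⟩ := key p'
  have h1 : act χ (fun n => (grow p (n + N) : ℤ)) = 0 := by
    funext m
    have h2 := act_shift χ (fun n => (grow p n : ℤ)) m N
    rw [hk] at h2
    exact h2
  have h3 : act (χ * χ') ((fun n => (grow p (n + N) : ℤ)) - fun n => (grow p' n : ℤ)) = 0 := by
    rw [act_sub_seq, act_of_dvd (dvd_mul_right χ χ') h1, act_of_dvd (dvd_mul_left χ' χ) hk',
      sub_zero]
  have h4 := eq_zero_of_act_le (hχ.mul hχ') h3 (sz p + sz p') (by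
    rw [hχ.natDegree_mul hχ']
    omega) (fun i hi => by
    rw [Pi.sub_apply, h i hi, sub_self])
  have h5 := congrFun h4 n
  rw [Pi.sub_apply, Pi.zero_apply, sub_eq_zero] at h5
  exact_mod_cast h5

end Pool.Agent.Helper49.DX
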