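import Pool.Agent.Helper49.DX.SysD0L
import Pool.Agent.Helper49.DX.Word
import Pool.Agent.Helper73.DM.Fwd
import Pool.Agent.Helper73.DM.Rev

/-!
# DX-4: compression to `m + 1` letters, and the decision procedure

* `compress`: a D0L system with at most `m` reachable recurrent letters has the same growth function,
  up to finitely many terms, as a D0L system with at most `m + 1` letters.
* `rec_iff`: monotonicity for systems with at most `k + 3` reachable recurrent letters is decidable
  if and only if it is for systems with at most `k + 4` letters.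
-/

set_option autoImplicit false

namespace Pool.Agent.Helper49.DX

open Pool.Agent.Helper73.DM Pool.Agent.CQ

theorem compress (m : ℕ) (p : List (List ℕ) × List ℕ) (h : RecLE m p) :
    ∃ (N : ℕ) (p' : List (List ℕ) × List ℕ), (letters p').card ≤ m + 1 ∧
      ∀ n, grow p (n + N) = grow p' n := by
  classical
  obtain ⟨F, hF, hFm⟩ := h
  obtain ⟨R, M, w, hR, hmem, hg, hc, hc2⟩ := exists_matrix2 p
  have hs : Sys (Finset.univ : Finset R) M w (fun _ => 1) :=
    ⟨fun a b _ => ⟨Finset.mem_univ _, Finset.mem_univ _⟩, fun a _ => Finset.mem_univ _,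
      fun a _ => le_rfl⟩
  obtain ⟨L, S', M', w', η', -, h2, h3, h4⟩ := elim_all _ le_rfl hs
  have hcard : S'.card ≤ m := by
    refine le_trans ?_ hF
    refine Finset.card_le_card_of_injOn (fun a : R => (a : ℕ)) ?_ ?_
    · intro a ha
      obtain ⟨n, hn⟩ := h3 a ha
      obtain ⟨i, hi⟩ := (hmem a).1 a.2
      rw [hc2] at hn
      exact hFm a i n hi (List.count_pos_iff.1 (Nat.pos_of_ne_zero hn))
    · intro a _ b _ hab
      exact Subtype.ext hab
  obtain ⟨p', hp1, hp2⟩ := sys_d0l h2
  refine ⟨L, p', hp1.trans (Nat.succ_le_succ hcard), fun n => ?_⟩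
  rw [hp2, h4, hg]
  refine Finset.sum_congr rfl fun b _ => ?_
  rw [mul_one]

/-! ## computability of the words -/

private theorem pr_iter : Primrec (fun q : (List (List ℕ) × List ℕ) × (List ℕ × ℕ) =>
    (hm q.1)^[q.2.2] q.2.1) := by
  have hstep : Primrec₂ (fun (q : (List (List ℕ) × List ℕ) × (List ℕ × ℕ)) (w : List ℕ) =>
      hm q.1 w) := by
    unfold hm
    refine Primrec.list_flatMap Primrec.snd ?_
    exact (Primrec.list_getD ([] : List ℕ)).comp
      (Primrec.fst.comp (Primrec.fst.comp (Primrec.fst.comp Primrec.fst))) Primrec.snd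
  exact Primrec.nat_iterate (Primrec.snd.comp Primrec.snd) (Primrec.fst.comp Primrec.snd) hstep

theorem comp_iter {α : Type*} [Primcodable α] {p : α → List (List ℕ) × List ℕ} {l : α → List ℕ}
    {n : α → ℕ} (hp : Computable p) (hl : Computable l) (hn : Computable n) :
    Computable (fun a => (hm (p a))^[n a] (l a)) :=
  pr_iter.to_comp.comp (hp.pair (hl.pair hn))

theorem comp_mem {α : Type*} [Primcodable α] {x : α → ℕ} {l : α → List ℕ}
    (hx : Computable x) (hl : Computable l) : ComputablePred (fun a => x a ∈ l a) := by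
  classical
  have h1 : PrimrecRel (fun (L : List ℕ) (b : ℕ) => ∃ a ∈ L, a = b) :=
    PrimrecRel.exists_mem_list Primrec.eq
  have h2 : PrimrecRel (fun (L : List ℕ) (b : ℕ) => b ∈ L) := by
    refine PrimrecRel.of_eq h1 fun L b => ?_
    constructor
    · rintro ⟨a, ha, rfl⟩
      exact ha
    · intro hb
      exact ⟨b, hb, rfl⟩
  have h3 : Computable (fun q : List ℕ × ℕ => decide (q.2 ∈ q.1)) := h2.decide.to_comp
  refine ⟨inferInstance, ?_⟩
  exact h3.comp (hl.pair hx)

theorem recLE_iff (m : ℕ) (p : List (List ℕ) × List ℕ) : RecLE m p ↔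
    ∃ f : Fin m → ℕ, ∀ i ∈ List.range (sz p), ∀ a ∈ (hm p)^[i] p.2, ∀ j ∈ List.range (sz p),
      a ∉ (hm p)^[j + 1] [a] ∨ ∃ x, f x = a := by
  classical
  constructor
  · rintro ⟨F, hF, hFm⟩
    refine ⟨fun x => F.toList.getD x 0, fun i _ a ha j _ => ?_⟩
    by_cases h : a ∈ (hm p)^[j + 1] [a]
    · right
      have h1 : a ∈ F.toList := Finset.mem_toList.2 (hFm a i j ha h)
      obtain ⟨x, hx, hxa⟩ := List.mem_iff_getElem.1 h1
      rw [Finset.length_toList] at hx
      refine ⟨⟨x, lt_of_lt_of_le hx hF⟩, ?_⟩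
      simp only
      rw [List.getD_eq_getElem _ _ (by rw [Finset.length_toList]; exact hx)]
      exact hxa
    · exact Or.inl h
  · rintro ⟨f, hf⟩
    refine ⟨Finset.univ.image f, (Finset.card_image_le).trans (by simp), ?_⟩
    intro a i j hi hj
    obtain ⟨i', hi', hi2⟩ := occ_bound p ⟨i, hi⟩
    obtain ⟨j', hj', hj2⟩ := ret_bound p ⟨i, hi⟩ ⟨j, hj⟩
    rcases hf i' (List.mem_range.2 hi') a hi2 j' (List.mem_range.2 hj') with h | ⟨x, hx⟩
    · exact absurd hj2 h
    · exact Finset.mem_image.2 ⟨x, Finset.mem_univ _, hx⟩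

theorem re_recLE (m : ℕ) : REPred (fun p : List (List ℕ) × List ℕ => RecLE m p) := by
  have h : REPred (fun p : List (List ℕ) × List ℕ =>
      ∃ f : Fin m → ℕ, ∀ i ∈ List.range (sz p), ∀ a ∈ (hm p)^[i] p.2, ∀ j ∈ List.range (sz p),
        a ∉ (hm p)^[j + 1] [a] ∨ ∃ x, f x = a) := by
    refine re_exists (R := fun (p : List (List ℕ) × List ℕ) (f : Fin m → ℕ) =>
      ∀ i ∈ List.range (sz p), ∀ a ∈ (hm p)^[i] p.2, ∀ j ∈ List.range (sz p),
        a ∉ (hm p)^[j + 1] [a] ∨ ∃ x, f x = a) ?_
    refine re_forall_list (R := fun (q : (List (List ℕ) × List ℕ) × (Fin m → ℕ)) (i : ℕ) =>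
      ∀ a ∈ (hm q.1)^[i] q.1.2, ∀ j ∈ List.range (sz q.1),
        a ∉ (hm q.1)^[j + 1] [a] ∨ ∃ x, q.2 x = a) ?_
        (Primrec.list_range.to_comp.comp (comp_sz.comp Computable.fst))
    refine re_forall_list (R := fun (q : ((List (List ℕ) × List ℕ) × (Fin m → ℕ)) × ℕ) (a : ℕ) =>
      ∀ j ∈ List.range (sz q.1.1),
        a ∉ (hm q.1.1)^[j + 1] [a] ∨ ∃ x, q.1.2 x = a) ?_
        (comp_iter (Computable.fst.comp Computable.fst)
          (Computable.snd.comp (Computable.fst.comp Computable.fst)) Computable.snd)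
    refine re_forall_list (R := fun (q : (((List (List ℕ) × List ℕ) × (Fin m → ℕ)) × ℕ) × ℕ)
      (j : ℕ) => q.2 ∉ (hm q.1.1.1)^[j + 1] [q.2] ∨ ∃ x, q.1.1.2 x = q.2) ?_
        (Primrec.list_range.to_comp.comp (comp_sz.comp (Computable.fst.comp
          (Computable.fst.comp Computable.fst))))
    refine re_or ?_ ?_
    · refine ComputablePred.to_re (ComputablePred.not ?_)
      refine comp_mem (Computable.snd.comp Computable.fst) ?_
      refine comp_iter (Computable.fst.comp (Computable.fst.comp (Computable.fst.comp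
        Computable.fst))) ?_ (Computable.succ.comp Computable.snd)
      exact (Primrec.list_cons.to_comp).comp (Computable.snd.comp Computable.fst)
        (Computable.const [])
    · refine re_exists_fintype fun x => re_eq ?_ (Computable.snd.comp Computable.fst)
      exact c_app (f := fun q : ((((List (List ℕ) × List ℕ) × (Fin m → ℕ)) × ℕ) × ℕ) × ℕ =>
        q.1.1.1.2) (Computable.snd.comp (Computable.fst.comp (Computable.fst.comp
          Computable.fst))) x
  exact h.of_eq fun p => (recLE_iff m p).symm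

theorem not_recLE_iff (m : ℕ) (p : List (List ℕ) × List ℕ) : ¬ RecLE m p ↔
    ∃ g : Fin (m + 1) → ℕ, (∀ x y, x = y ∨ g x ≠ g y) ∧ ∀ x, (∃ i, g x ∈ (hm p)^[i] p.2) ∧
      ∃ j, g x ∈ (hm p)^[j + 1] [g x] := by
  classical
  constructor
  · intro h
    obtain ⟨A, hA⟩ : ∃ A : Finset ℕ, A = (letters p).filter (fun a =>
      (∃ i, a ∈ (hm p)^[i] p.2) ∧ ∃ j, a ∈ (hm p)^[j + 1] [a]) := ⟨_, rfl⟩
    have hc : m + 1 ≤ A.card := by
      by_contra hcon
      apply h
      refine ⟨A, by omega, fun a i j hi hj => ?_⟩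
      rw [hA, Finset.mem_filter]
      exact ⟨mem_letters p hi, ⟨i, hi⟩, ⟨j, hj⟩⟩
    obtain ⟨B, hBA, hB⟩ := Finset.exists_subset_card_eq hc
    have e := B.equivFinOfCardEq hB
    refine ⟨fun x => (e.symm x : ℕ), fun x y => ?_, fun x => ?_⟩
    · by_cases hxy : x = y
      · exact Or.inl hxy
      · right
        intro h2
        exact hxy (e.symm.injective (Subtype.ext h2))
    · have h2 := hBA (e.symm x).2
      rw [hA, Finset.mem_filter] at h2
      exact h2.2
  · rintro ⟨g, hg, hg2⟩ ⟨F, hF, hFm⟩
    have h1 : (Finset.univ.image g).card = m + 1 := by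
      rw [Finset.card_image_of_injective _ (fun x y hxy => ?_)]
      · simp
      · rcases hg x y with h | h
        · exact h
        · exact absurd hxy h
    have h2 : Finset.univ.image g ⊆ F := by
      intro a ha
      obtain ⟨x, -, rfl⟩ := Finset.mem_image.1 ha
      obtain ⟨⟨i, hi⟩, ⟨j, hj⟩⟩ := hg2 x
      exact hFm _ i j hi hj
    have h3 := Finset.card_le_card h2
    omega

theorem re_not_recLE (m : ℕ) : REPred (fun p : List (List ℕ) × List ℕ => ¬ RecLE m p) := by
  have h : REPred (fun p : List (List ℕ) × List ℕ =>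
      ∃ g : Fin (m + 1) → ℕ, (∀ x y, x = y ∨ g x ≠ g y) ∧ ∀ x, (∃ i, g x ∈ (hm p)^[i] p.2) ∧
        ∃ j, g x ∈ (hm p)^[j + 1] [g x]) := by
    refine re_exists (R := fun (p : List (List ℕ) × List ℕ) (g : Fin (m + 1) → ℕ) =>
      (∀ x y, x = y ∨ g x ≠ g y) ∧ ∀ x, (∃ i, g x ∈ (hm p)^[i] p.2) ∧
        ∃ j, g x ∈ (hm p)^[j + 1] [g x]) ?_
    have hx : ∀ x : Fin (m + 1), Computable
        (fun q : (List (List ℕ) × List ℕ) × (Fin (m + 1) → ℕ) => q.2 x) :=
      fun x => c_app Computable.snd x
    refine re_and (re_forall_fintype fun x => re_forall_fintype fun y => ?_)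
      (re_forall_fintype fun x => re_and ?_ ?_)
    · by_cases hxy : x = y
      · exact re_true.of_eq fun q => by simp [hxy]
      · exact (re_ne (hx x) (hx y)).of_eq fun q => by simp [hxy]
    · refine re_exists (R := fun (q : (List (List ℕ) × List ℕ) × (Fin (m + 1) → ℕ)) (i : ℕ) =>
        q.2 x ∈ (hm q.1)^[i] q.1.2) ?_
      refine (comp_mem ((hx x).comp Computable.fst) ?_).to_re
      exact comp_iter (Computable.fst.comp Computable.fst)
        (Computable.snd.comp (Computable.fst.comp Computable.fst)) Computable.snd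
    · refine re_exists (R := fun (q : (List (List ℕ) × List ℕ) × (Fin (m + 1) → ℕ)) (j : ℕ) =>
        q.2 x ∈ (hm q.1)^[j + 1] [q.2 x]) ?_
      refine (comp_mem ((hx x).comp Computable.fst) ?_).to_re
      refine comp_iter (Computable.fst.comp Computable.fst) ?_
        (Computable.succ.comp Computable.snd)
      exact (Primrec.list_cons.to_comp).comp ((hx x).comp Computable.fst) (Computable.const [])
  exact h.of_eq fun p => (not_recLE_iff m p).symm

theorem cp_recLE (m : ℕ) : ComputablePred (fun p : List (List ℕ) × List ℕ => RecLE m p) :=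
  computable_of_re (re_recLE m) (re_not_recLE m)

theorem re_not_mono : REPred (fun p : List (List ℕ) × List ℕ => ¬ Mono p) := by
  have h2 : REPred (fun p : List (List ℕ) × List ℕ => ∃ n, ¬ (grow p n ≤ grow p (n + 1))) := by
    refine re_exists (R := fun (p : List (List ℕ) × List ℕ) (n : ℕ) =>
      ¬ (grow p n ≤ grow p (n + 1))) ?_
    refine ComputablePred.to_re (ComputablePred.not (fw_le ?_ ?_))
    · exact comp_grow.comp Computable.fst Computable.snd
    · exact comp_grow.comp Computable.fst (Computable.succ.comp Computable.snd)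
  exact h2.of_eq (fun p => by
    unfold Mono
    rw [not_forall])

/-- certificates for monotonicity through a small system with the same tail -/
theorem re_cert {s : ℕ} (h : ComputablePred (MonK s)) :
    REPred (fun p : List (List ℕ) × List ℕ => ∃ z : ℕ × (List (List ℕ) × List ℕ),
      (∀ n ∈ List.range (sz p + sz z.2), grow p (n + z.1) = grow z.2 n) ∧
      (∀ n ∈ List.range z.1, grow p n ≤ grow p (n + 1)) ∧ MonK s z.2) := by
  refine re_exists (R := fun (p : List (List ℕ) × List ℕ) (z : ℕ × (List (List ℕ) × List ℕ)) =>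
    (∀ n ∈ List.range (sz p + sz z.2), grow p (n + z.1) = grow z.2 n) ∧
      (∀ n ∈ List.range z.1, grow p n ≤ grow p (n + 1)) ∧ MonK s z.2) ?_
  have hadd : Computable₂ (fun a b : ℕ => a + b) := Primrec.nat_add.to_comp
  refine re_and ?_ (re_and ?_ ?_)
  · refine re_forall_list (R := fun (q : (List (List ℕ) × List ℕ) × (ℕ × (List (List ℕ) × List ℕ)))
      (n : ℕ) => grow q.1 (n + q.2.1) = grow q.2.2 n) ?_ ?_
    · refine re_eq ?_ ?_
      · refine comp_grow.comp (Computable.fst.comp Computable.fst) ?_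
        exact hadd.comp Computable.snd (Computable.fst.comp (Computable.snd.comp Computable.fst))
      · exact comp_grow.comp (Computable.snd.comp (Computable.snd.comp Computable.fst))
          Computable.snd
    · refine Primrec.list_range.to_comp.comp (hadd.comp (comp_sz.comp Computable.fst)
        (comp_sz.comp (Computable.snd.comp Computable.snd)))
  · refine re_forall_list (R := fun (q : (List (List ℕ) × List ℕ) × (ℕ × (List (List ℕ) × List ℕ)))
      (n : ℕ) => grow q.1 n ≤ grow q.1 (n + 1)) ?_ ?_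
    · refine ComputablePred.to_re (fw_le ?_ ?_)
      · exact comp_grow.comp (Computable.fst.comp Computable.fst) Computable.snd
      · exact comp_grow.comp (Computable.fst.comp Computable.fst)
          (Computable.succ.comp Computable.snd)
    · exact Primrec.list_range.to_comp.comp (Computable.fst.comp Computable.snd)
  · exact re_comp h.to_re (Computable.snd.comp Computable.snd)

theorem mono_of_cert {s : ℕ} (p : List (List ℕ) × List ℕ) (z : ℕ × (List (List ℕ) × List ℕ))
    (h1 : ∀ n ∈ List.range (sz p + sz z.2), grow p (n + z.1) = grow z.2 n)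
    (h2 : ∀ n ∈ List.range z.1, grow p n ≤ grow p (n + 1)) (h3 : MonK s z.2) : Mono p := by
  have h4 := tail_eq p z.2 z.1 (fun n hn => h1 n (List.mem_range.2 hn))
  intro n
  by_cases hn : n < z.1
  · exact h2 n (List.mem_range.2 hn)
  · obtain ⟨m, rfl⟩ : ∃ m, n = m + z.1 := ⟨n - z.1, by omega⟩
    have e : m + z.1 + 1 = m + 1 + z.1 := by ring
    rw [h4, e, h4]
    exact h3.2 m

/-- from `m + 1` letters to `m` recurrent letters -/
theorem rec_of_mon (m : ℕ) (h : ComputablePred (MonK (m + 1))) :
    ComputablePred (fun p : List (List ℕ) × List ℕ => RecLE m p ∧ Mono p) := by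
  refine computable_of_re ?_ ?_
  · refine (re_and (re_recLE m) (re_cert h)).of_eq fun p => ?_
    constructor
    · rintro ⟨h1, z, h2, h3, h4⟩
      exact ⟨h1, mono_of_cert p z h2 h3 h4⟩
    · rintro ⟨h1, h2⟩
      obtain ⟨N, p', h3, h4⟩ := compress m p h1
      refine ⟨h1, (N, p'), fun n _ => h4 n, fun n _ => h2 n, h3, fun n => ?_⟩
      rw [← h4, ← h4]
      have e : n + 1 + N = n + N + 1 := by ring
      rw [e]
      exact h2 _
  · refine (re_or (re_not_recLE m) re_not_mono).of_eq fun p => ?_
    rw [not_and_or]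

/-- a system with at most `m + 1` letters and more than `m` recurrent ones is monotonic -/
theorem mono_of_many (m : ℕ) (p : List (List ℕ) × List ℕ) (h : (letters p).card ≤ m + 1)
    (h2 : ¬ RecLE m p) : Mono p := by
  classical
  obtain ⟨g, hg, hg2⟩ := (not_recLE_iff m p).1 h2
  have h1 : (Finset.univ.image g).card = m + 1 := by
    rw [Finset.card_image_of_injective _ (fun x y hxy => ?_)]
    · simp
    · rcases hg x y with h | h
      · exact h
      · exact absurd hxy h
  have h3 : Finset.univ.image g ⊆ letters p := by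
    intro a ha
    obtain ⟨x, -, rfl⟩ := Finset.mem_image.1 ha
    obtain ⟨⟨i, hi⟩, -⟩ := hg2 x
    exact mem_letters p hi
  have h4 : Finset.univ.image g = letters p := Finset.eq_of_subset_of_card_le h3 (by omega)
  intro n
  rw [grow_eq, grow_eq, Function.iterate_succ_apply']
  have h5 : ∀ a ∈ (hm p)^[n] p.2, 1 ≤ (p.1.getD a []).length := by
    intro a ha
    have h6 := mem_letters p ha
    rw [← h4] at h6
    obtain ⟨x, -, rfl⟩ := Finset.mem_image.1 h6
    obtain ⟨-, ⟨j, hj⟩⟩ := hg2 x
    by_contra hcon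
    have h7 : p.1.getD (g x) [] = [] := by
      rw [← List.length_eq_zero_iff]
      omega
    rw [Function.iterate_succ_apply] at hj
    have h8 : hm p [g x] = [] := by
      unfold hm
      rw [List.flatMap_singleton, h7]
    rw [h8, iter_nil] at hj
    simp at hj
  have h6 : ∀ l : List ℕ, (∀ a ∈ l, 1 ≤ (p.1.getD a []).length) → l.length ≤ (hm p l).length := by
    intro l
    induction l with
    | nil => intro _; simp
    | cons c l ih =>
      intro h
      have h7 := ih fun a ha => h a (List.mem_cons_of_mem _ ha)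
      have h8 := h c List.mem_cons_self
      unfold hm at h7 ⊢
      rw [List.flatMap_cons, List.length_append, List.length_cons]
      omega
  exact h6 _ h5

/-- from `m` recurrent letters to `m + 1` letters -/
theorem mon_of_rec (m : ℕ)
    (h : ComputablePred (fun p : List (List ℕ) × List ℕ => RecLE m p ∧ Mono p)) :
    ComputablePred (MonK (m + 1)) := by
  refine computable_of_re ?_ ?_
  · refine (re_and (comp_letters (m + 1)).to_re (re_or h.to_re (re_not_recLE m))).of_eq
      fun p => ?_
    unfold MonK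
    constructor
    · rintro ⟨h1, ⟨-, h2⟩ | h2⟩
      · exact ⟨h1, h2⟩
      · exact ⟨h1, mono_of_many m p h1 h2⟩
    · rintro ⟨h1, h2⟩
      refine ⟨h1, ?_⟩
      by_cases h3 : RecLE m p
      · exact Or.inl ⟨h3, h2⟩
      · exact Or.inr h3
  · refine (re_or (comp_letters (m + 1)).not.to_re re_not_mono).of_eq fun p => ?_
    unfold MonK
    rw [not_and_or]

theorem rec_iff (m : ℕ) : ComputablePred (MonK (m + 1)) ↔
    ComputablePred (fun p : List (List ℕ) × List ℕ => RecLE m p ∧ Mono p) :=
  ⟨rec_of_mon m, mon_of_rec m⟩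

end Pool.Agent.Helper49.DX
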