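import Pool.Agent.Helper49.DX.Elim
import Pool.Agent.Helper73.DM.MatD0L

/-!
# DX-2: a system with positive weights is the growth function of a D0L system with one more letter
-/

set_option autoImplicit false

namespace Pool.Agent.Helper49.DX

open Matrix Finset Pool.Agent.Helper73.DM

variable {ι : Type*} [Fintype ι] [DecidableEq ι]

theorem sys_d0l {S : Finset ι} {M : Matrix ι ι ℕ} {w η : ι → ℕ} (h : Sys S M w η) :
    ∃ p : List (List ℕ) × List ℕ, (letters p).card ≤ S.card + 1 ∧
      ∀ n, grow p n = ∑ b, vecMul w (M ^ n) b * η b := by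
  classical
  obtain ⟨hM, hw, hη⟩ := h
  obtain ⟨M1, hM1⟩ : ∃ M1 : Matrix (Option S) (Option S) ℕ, M1 = fun a b =>
      match a, b with
      | some a, some b => M (a : ι) (b : ι)
      | some a, none => ∑ b ∈ S, M (a : ι) b * (η b - 1)
      | none, _ => 0 := ⟨_, rfl⟩
  obtain ⟨w1, hw1⟩ : ∃ w1 : Option S → ℕ, w1 = fun a =>
      match a with
      | some a => w (a : ι)
      | none => ∑ b ∈ S, w b * (η b - 1) := ⟨_, rfl⟩
  have m1 : ∀ a b : S, M1 (some a) (some b) = M (a : ι) (b : ι) := fun a b => by rw [hM1]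
  have m2 : ∀ a : S, M1 (some a) none = ∑ b ∈ S, M (a : ι) b * (η b - 1) := fun a => by rw [hM1]
  have m3 : ∀ b, M1 none b = 0 := fun b => by
    rw [hM1]
  have xs : ∀ n a, a ∉ S → vecMul w (M ^ n) a = 0 := by
    intro n a ha
    by_contra hcon
    exact ha (vec_supp hM hw n a hcon)
  have stp : ∀ n b, vecMul w (M ^ (n + 1)) b = ∑ c ∈ S, vecMul w (M ^ n) c * M c b := by
    intro n b
    rw [pow_succ, ← vecMul_vecMul]
    have h1 : vecMul (vecMul w (M ^ n)) M b = ∑ c, vecMul w (M ^ n) c * M c b := rfl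
    rw [h1]
    symm
    refine Finset.sum_subset (subset_univ S) fun c _ hc => ?_
    rw [xs n c hc, zero_mul]
  have key : ∀ n, (∀ a : S, vecMul w1 (M1 ^ n) (some a) = vecMul w (M ^ n) (a : ι)) ∧
      vecMul w1 (M1 ^ n) none = ∑ b ∈ S, vecMul w (M ^ n) b * (η b - 1) := by
    intro n
    induction n with
    | zero =>
      constructor
      · intro a
        rw [pow_zero, vecMul_one, pow_zero, vecMul_one, hw1]
      · rw [pow_zero, vecMul_one, hw1]
        simp only [pow_zero, vecMul_one]
    | succ n ih =>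
      obtain ⟨ih1, ih2⟩ := ih
      have h1 : ∀ b, vecMul w1 (M1 ^ (n + 1)) b =
          ∑ c : S, vecMul w (M ^ n) (c : ι) * M1 (some c) b := by
        intro b
        have h2 : vecMul w1 (M1 ^ (n + 1)) b = ∑ c, vecMul w1 (M1 ^ n) c * M1 c b := by
          rw [pow_succ, ← vecMul_vecMul]
          rfl
        rw [h2, Fintype.sum_option, m3, mul_zero, zero_add]
        refine Finset.sum_congr rfl fun c _ => ?_
        rw [ih1]
      constructor
      · intro a
        rw [h1, stp, ← Finset.sum_coe_sort S (fun c => vecMul w (M ^ n) c * M c (a : ι))]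
        refine Finset.sum_congr rfl fun c _ => ?_
        rw [m1]
      · rw [h1]
        have h3 : ∀ c : S, vecMul w (M ^ n) (c : ι) * M1 (some c) none =
            (fun c : ι => vecMul w (M ^ n) c * ∑ b ∈ S, M c b * (η b - 1)) (c : ι) := by
          intro c
          rw [m2]
        rw [Finset.sum_congr rfl (fun c _ => h3 c), Finset.sum_coe_sort S
          (fun c : ι => vecMul w (M ^ n) c * ∑ b ∈ S, M c b * (η b - 1))]
        have h4 : ∀ c ∈ S, vecMul w (M ^ n) c * ∑ b ∈ S, M c b * (η b - 1) =
            ∑ b ∈ S, vecMul w (M ^ n) c * M c b * (η b - 1) := by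
          intro c _
          rw [Finset.mul_sum]
          refine Finset.sum_congr rfl fun b _ => ?_
          rw [mul_assoc]
        rw [Finset.sum_congr rfl h4, Finset.sum_comm]
        refine Finset.sum_congr rfl fun b _ => ?_
        rw [stp, Finset.sum_mul]
  obtain ⟨p, hp1, hp2⟩ := exists_d0l M1 w1
  refine ⟨p, ?_, fun n => ?_⟩
  · rw [Fintype.card_option, Fintype.card_coe] at hp1
    exact hp1
  · rw [hp2, Fintype.sum_option, (key n).2]
    have h1 : ∑ a : S, vecMul w1 (M1 ^ n) (some a) = ∑ a ∈ S, vecMul w (M ^ n) a := by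
      rw [← Finset.sum_coe_sort S (fun a => vecMul w (M ^ n) a)]
      exact Finset.sum_congr rfl fun a _ => (key n).1 a
    have h2 : ∑ b, vecMul w (M ^ n) b * η b = ∑ b ∈ S, vecMul w (M ^ n) b * η b := by
      symm
      refine Finset.sum_subset (subset_univ S) fun c _ hc => ?_
      rw [xs n c hc, zero_mul]
    rw [h1, h2, ← Finset.sum_add_distrib]
    refine Finset.sum_congr rfl fun b hb => ?_
    have h3 := hη b hb
    obtain ⟨e, he⟩ := Nat.exists_eq_add_of_le h3
    rw [he, Nat.add_sub_cancel_left]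
    ring

end Pool.Agent.Helper49.DX
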